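import Pool.Agent.Helper92.TR.Rees
import Pool.Agent.Helper53.TR.Nagata
import Pool.Agent.Helper4.TR.Haboush

/-!
# Invariants of finitely generated algebras
-/

set_option autoImplicit false

namespace Pool.Agent.Helper92.TR

open Pool.Agent.Helper66.TR Polynomial

section action

variable {k : Type*} [Field k] {A : Type*} [CommRing A] [Algebra k A]
  (ρ : Representation k (G k) A) (hmul : IsMul ρ) {W : Submodule k A}
  (hW : ∀ g, ∀ a ∈ W, ρ g a ∈ W)

/-- the action on the Rees algebra -/
noncomputable def act (g : G k) : rees W →ₗ[k] rees W where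
  toFun b := ⟨Polynomial.mapAlgHom (toAlg ρ hmul g) (b : A[X]), by
    intro n
    rw [Polynomial.coe_mapAlgHom, Polynomial.coeff_map]
    exact pow_stable ρ hmul hW n g (b.2 n)⟩
  map_add' a b := by
    apply Subtype.ext
    exact map_add (Polynomial.mapAlgHom (toAlg ρ hmul g)) (a : A[X]) (b : A[X])
  map_smul' c b := by
    apply Subtype.ext
    exact map_smul (Polynomial.mapAlgHom (toAlg ρ hmul g)) c (b : A[X])

lemma act_coeff (g : G k) (b : rees W) (n : ℕ) :
    ((act ρ hmul hW g b : rees W) : A[X]).coeff n = ρ g ((b : A[X]).coeff n) := by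
  show (Polynomial.mapAlgHom (toAlg ρ hmul g) (b : A[X])).coeff n = _
  rw [Polynomial.coe_mapAlgHom, Polynomial.coeff_map]
  rfl

/-- the representation on the Rees algebra -/
noncomputable def rep : Representation k (G k) (rees W) where
  toFun g := act ρ hmul hW g
  map_one' := by
    refine LinearMap.ext fun b => ?_
    apply Subtype.ext
    apply Polynomial.ext
    intro n
    rw [act_coeff, map_one]
    rfl
  map_mul' g h := by
    refine LinearMap.ext fun b => ?_
    apply Subtype.ext
    apply Polynomial.ext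
    intro n
    rw [act_coeff, map_mul]
    show (ρ g * ρ h) _ = ((act ρ hmul hW g (act ρ hmul hW h b) : rees W) : A[X]).coeff n
    rw [act_coeff, act_coeff]
    rfl

lemma rep_coeff (g : G k) (b : rees W) (n : ℕ) :
    ((rep ρ hmul hW g b : rees W) : A[X]).coeff n = ρ g ((b : A[X]).coeff n) :=
  act_coeff ρ hmul hW g b n

lemma rep_mul (g : G k) (a b : rees W) :
    rep ρ hmul hW g (a * b) = rep ρ hmul hW g a * rep ρ hmul hW g b := by
  apply Subtype.ext
  exact map_mul (Polynomial.mapAlgHom (toAlg ρ hmul g)) (a : A[X]) (b : A[X])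

/-- the monomial map into the Rees algebra -/
noncomputable def mono (W : Submodule k A) (n : ℕ) : (W ^ n : Submodule k A) →ₗ[k] rees W where
  toFun a := ⟨monomial n (a : A), monomial_mem a.2⟩
  map_add' a b := by
    apply Subtype.ext
    exact map_add (monomial n) (a : A) (b : A)
  map_smul' c a := by
    apply Subtype.ext
    show monomial n (c • (a : A)) = c • monomial n (a : A)
    rw [Polynomial.smul_monomial]

lemma rep_rat (hρ : IsRational ρ) : IsRational (rep ρ hmul hW) := by
  intro b
  have hb : b = ∑ n ∈ (b : A[X]).support, comp b n := by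
    apply Subtype.ext
    rw [AddSubmonoidClass.coe_finsetSum]
    exact Polynomial.as_sum_support (b : A[X])
  have key : RatVec (rep ρ hmul hW) (∑ n ∈ (b : A[X]).support, comp b n) := by
    apply RatVec.sum
    intro n _
    obtain ⟨π, hπ⟩ := (W ^ n).subtype.exists_leftInverse_of_injective
      (LinearMap.ker_eq_bot.mpr (Submodule.subtype_injective _))
    have h1 : RatVec ρ ((b : A[X]).coeff n) := hρ _
    refine RatVec.map h1 ((mono W n).comp π) _ ?_
    intro g
    have h2 : ρ g ((b : A[X]).coeff n) ∈ W ^ n := pow_stable ρ hmul hW n g (b.2 n)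
    have h3 : π (ρ g ((b : A[X]).coeff n)) = ⟨ρ g ((b : A[X]).coeff n), h2⟩ :=
      LinearMap.congr_fun hπ ⟨ρ g ((b : A[X]).coeff n), h2⟩
    rw [LinearMap.comp_apply, h3]
    apply Subtype.ext
    apply Polynomial.ext
    intro m
    rw [rep_coeff]
    show ρ g ((monomial n ((b : A[X]).coeff n)).coeff m) = (monomial n (ρ g ((b : A[X]).coeff n))).coeff m
    rw [coeff_monomial, coeff_monomial]
    split_ifs
    · rfl
    · exact map_zero _
  rw [← hb] at key
  exact key

/-- evaluation at `1` -/
noncomputable def ev (W : Submodule k A) : rees W →ₐ[k] A :=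
  ((Polynomial.aeval (1 : A)).restrictScalars k).comp (rees W).val

lemma ev_apply (b : rees W) : ev W b = Polynomial.eval 1 (b : A[X]) := by
  show Polynomial.aeval (1 : A) (b : A[X]) = _
  rw [Polynomial.coe_aeval_eq_eval]

lemma ev_rep (g : G k) (b : rees W) : ev W (rep ρ hmul hW g b) = ρ g (ev W b) := by
  rw [ev_apply, ev_apply]
  show Polynomial.eval 1 (Polynomial.mapAlgHom (toAlg ρ hmul g) (b : A[X])) =
    toAlg ρ hmul g (Polynomial.eval 1 (b : A[X]))
  rw [Polynomial.coe_mapAlgHom]
  exact Polynomial.eval_one_map (toAlg ρ hmul g : A →+* A) (b : A[X])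

end action

theorem fg_inv {k A : Type*} [Field k] [Infinite k] (p : ℕ) [Fact p.Prime] [CharP k p]
    [CommRing A] [Algebra k A] [Algebra.FiniteType k A] (ρ : Representation k (G k) A)
    (hmul : IsMul ρ) (hρ : IsRational ρ) :
    ∃ s : Finset A, (∀ f ∈ s, ∀ g, ρ g f = f) ∧
      ∀ a : A, (∀ g, ρ g a = a) → a ∈ Algebra.adjoin k (s : Set A) := by
  classical
  obtain ⟨W, hFG, hst, h1, hgen⟩ := exists_W ρ hρ
  have : Fact W.FG := ⟨hFG⟩
  obtain ⟨s, hs1, hs2⟩ := Pool.Agent.Helper53.TR.nagata_graded (rep ρ hmul hst) (rep_mul ρ hmul hst) (gr W)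
    (by
      intro a ha
      have h2 : (a : A[X]).coeff 0 ∈ W ^ 0 := a.2 0
      rw [pow_zero, Submodule.mem_one] at h2
      obtain ⟨r, hr⟩ := h2
      refine ⟨r, ?_⟩
      apply Subtype.ext
      apply Polynomial.ext
      intro n
      show (a : A[X]).coeff n = (algebraMap k A[X] r).coeff n
      rw [Polynomial.algebraMap_apply, Polynomial.coeff_C]
      split_ifs with h
      · rw [h, hr]
      · exact ha n h)
    (by
      intro g i a ha m hm
      rw [rep_coeff, ha m hm, map_zero])
    (fun J hJ a ha => Pool.Agent.Helper4.TR.haboush p (rep ρ hmul hst) (rep_mul ρ hmul hst) (rep_rat ρ hmul hst hρ) J hJ a ha)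
    ⊥ (by
      intro g a ha
      rw [Ideal.mem_bot] at ha ⊢
      rw [ha, map_zero]) (Ideal.IsHomogeneous.bot _)
  refine ⟨s.image (ev W), ?_, ?_⟩
  · intro f hf g
    obtain ⟨b, hb, rfl⟩ := Finset.mem_image.mp hf
    rw [← ev_rep ρ hmul hst]
    have h2 := hs1 b hb g
    rw [Ideal.mem_bot, sub_eq_zero] at h2
    rw [h2]
  · intro a ha
    obtain ⟨n, hn⟩ := exists_pow h1 hgen a
    have hinv : ∀ g, rep ρ hmul hst g (mono W n ⟨a, hn⟩) - mono W n ⟨a, hn⟩ ∈ (⊥ : Ideal (rees W)) := by
      intro g
      rw [Ideal.mem_bot, sub_eq_zero]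
      apply Subtype.ext
      apply Polynomial.ext
      intro m
      rw [rep_coeff]
      show ρ g ((monomial n a).coeff m) = (monomial n a).coeff m
      rw [coeff_monomial]
      split_ifs
      · exact ha g
      · exact map_zero _
    obtain ⟨b, hb, hab⟩ := hs2 _ hinv
    rw [Ideal.mem_bot, sub_eq_zero] at hab
    have h3 : ev W b ∈ (Algebra.adjoin k (s : Set (rees W))).map (ev W) := ⟨b, hb, rfl⟩
    rw [AlgHom.map_adjoin, ← Finset.coe_image, ← hab, ev_apply] at h3
    have h4 : Polynomial.eval 1 ((mono W n ⟨a, hn⟩ : rees W) : A[X]) = a := by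
      show Polynomial.eval 1 (monomial n a) = a
      simp
    rwa [h4] at h3

end Pool.Agent.Helper92.TR
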