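import Pool.Agent.Helper92.TR.Rat

/-!
# A stable finite dimensional generating subspace and the filtration by its powers
-/

set_option autoImplicit false

namespace Pool.Agent.Helper92.TR

open Pool.Agent.Helper66.TR Polynomial

variable {k : Type*} [Field k] {A : Type*} [CommRing A] [Algebra k A]

/-- a finite dimensional stable subspace which contains `1` and generates the algebra -/
lemma exists_W [Algebra.FiniteType k A] (ρ : Representation k (G k) A) (hρ : IsRational ρ) :
    ∃ W : Submodule k A, W.FG ∧ (∀ g, ∀ a ∈ W, ρ g a ∈ W) ∧ 1 ≤ W ∧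
      Algebra.adjoin k (W : Set A) = ⊤ := by
  classical
  obtain ⟨S, hS⟩ := (inferInstance : Algebra.FiniteType k A).out
  have hT : (insert (1 : A) S : Finset A).Nonempty := ⟨1, Finset.mem_insert_self _ _⟩
  set T : Finset A := insert (1 : A) S with hTdef
  set W : Submodule k A := Submodule.span k (⋃ x ∈ T, Set.range (fun g : G k => ρ g x)) with hW
  have hmem : ∀ x ∈ T, ∀ g, ρ g x ∈ W := by
    intro x hx g
    apply Submodule.subset_span
    simp only [Set.mem_iUnion]
    exact ⟨x, hx, g, rfl⟩
  have hmem1 : ∀ x ∈ T, x ∈ W := by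
    intro x hx
    have := hmem x hx 1
    rwa [map_one, Module.End.one_apply] at this
  choose m f w hfw using hρ
  refine ⟨W, ?_, ?_, ?_, ?_⟩
  · -- finite dimensional
    have hle : W ≤ Submodule.span k (⋃ x ∈ T, Set.range (w x)) := by
      rw [hW, Submodule.span_le]
      intro y hy
      simp only [Set.mem_iUnion] at hy
      obtain ⟨x, hx, g, rfl⟩ := hy
      simp only
      rw [SetLike.mem_coe, hfw x g]
      apply Submodule.sum_mem
      intro i _
      apply Submodule.smul_mem
      apply Submodule.subset_span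
      simp only [Set.mem_iUnion]
      exact ⟨x, hx, i, rfl⟩
    have hfin : (⋃ x ∈ T, Set.range (w x)).Finite := by
      apply Set.Finite.biUnion (Finset.finite_toSet T)
      intro x _
      exact Set.finite_range _
    have : FiniteDimensional k (Submodule.span k (⋃ x ∈ T, Set.range (w x))) :=
      FiniteDimensional.span_of_finite k hfin
    have h2 : FiniteDimensional k W := Submodule.finiteDimensional_of_le hle
    exact (Submodule.fg_iff_finiteDimensional W).mpr h2
  · intro g a ha
    rw [hW] at ha
    induction ha using Submodule.span_induction with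
    | mem y hy =>
      simp only [Set.mem_iUnion] at hy
      obtain ⟨x, hx, g', rfl⟩ := hy
      have h := hmem x hx (g * g')
      rwa [map_mul, Module.End.mul_apply] at h
    | zero => rw [map_zero]; exact W.zero_mem
    | add x y _ _ hx hy => rw [map_add]; exact W.add_mem hx hy
    | smul c x _ hx => rw [map_smul]; exact W.smul_mem c hx
  · rw [Submodule.one_le]
    exact hmem1 1 (Finset.mem_insert_self _ _)
  · rw [eq_top_iff, ← hS]
    apply Algebra.adjoin_mono
    intro x hx
    exact hmem1 x (Finset.mem_insert_of_mem hx)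

lemma pow_stable (ρ : Representation k (G k) A) (hmul : IsMul ρ) {W : Submodule k A}
    (hW : ∀ g, ∀ a ∈ W, ρ g a ∈ W) (n : ℕ) (g : G k) {a : A} (ha : a ∈ W ^ n) :
    ρ g a ∈ W ^ n := by
  have h1 : W.map (toAlg ρ hmul g).toLinearMap ≤ W := by
    rintro _ ⟨a, ha, rfl⟩
    exact hW g a ha
  have h2 : (W ^ n).map (toAlg ρ hmul g).toLinearMap ≤ W ^ n := by
    rw [Submodule.map_pow]
    exact pow_le_pow_left' h1 n
  exact h2 ⟨a, ha, rfl⟩

lemma exists_pow {W : Submodule k A} (h1 : 1 ≤ W) (hgen : Algebra.adjoin k (W : Set A) = ⊤)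
    (a : A) : ∃ n, a ∈ W ^ n := by
  have ha : a ∈ Algebra.adjoin k (W : Set A) := by rw [hgen]; trivial
  have hmono : ∀ {n m : ℕ}, n ≤ m → W ^ n ≤ W ^ m := fun h => pow_le_pow_right' h1 h
  induction ha using Algebra.adjoin_induction with
  | mem x hx => exact ⟨1, by simpa using hx⟩
  | algebraMap r => exact ⟨0, by rw [pow_zero]; exact Submodule.algebraMap_mem r⟩
  | add x y _ _ hx hy =>
    obtain ⟨n, hn⟩ := hx
    obtain ⟨m, hm⟩ := hy
    exact ⟨max n m, (W ^ max n m).add_mem (hmono (le_max_left _ _) hn)
      (hmono (le_max_right _ _) hm)⟩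
  | mul x y _ _ hx hy =>
    obtain ⟨n, hn⟩ := hx
    obtain ⟨m, hm⟩ := hy
    exact ⟨n + m, by rw [pow_add]; exact Submodule.mul_mem_mul hn hm⟩

/-- the Rees algebra of the filtration by the powers of `W` -/
def rees (W : Submodule k A) : Subalgebra k A[X] where
  carrier := {p | ∀ n, p.coeff n ∈ W ^ n}
  mul_mem' := by
    intro p q hp hq n
    rw [Polynomial.coeff_mul]
    apply Submodule.sum_mem
    intro x hx
    have hx2 : x.1 + x.2 = n := by simpa using hx
    rw [← hx2, pow_add]
    exact Submodule.mul_mem_mul (hp _) (hq _)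
  add_mem' := by
    intro p q hp hq n
    rw [Polynomial.coeff_add]
    exact (W ^ n).add_mem (hp n) (hq n)
  algebraMap_mem' := by
    intro r n
    rw [Polynomial.algebraMap_apply, Polynomial.coeff_C]
    split_ifs with h
    · rw [h, pow_zero]
      exact Submodule.algebraMap_mem r
    · exact (W ^ n).zero_mem

lemma mem_rees {W : Submodule k A} {p : A[X]} : p ∈ rees W ↔ ∀ n, p.coeff n ∈ W ^ n := Iff.rfl

lemma monomial_mem {W : Submodule k A} {n : ℕ} {a : A} (ha : a ∈ W ^ n) :
    monomial n a ∈ rees W := by
  intro m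
  rw [coeff_monomial]
  split_ifs with h
  · rw [← h]; exact ha
  · exact (W ^ m).zero_mem

end Pool.Agent.Helper92.TR
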