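import Pool.Agent.Helper66.TR.Defs

/-!
# Rational vectors, multiplicative representations
-/

set_option autoImplicit false

namespace Pool.Agent.Helper92.TR

open Pool.Agent.Helper66.TR

section

variable {k : Type*} [Field k] {V : Type*} [AddCommGroup V] [Module k V]

/-- rational vectors -/
def RatVec (ρ : Representation k (G k) V) (v : V) : Prop :=
  ∃ (m : ℕ) (f : Fin m → MvPolynomial (Fin 2 × Fin 2) k) (w : Fin m → V),
    ∀ g : G k, ρ g v = ∑ i, (MvPolynomial.eval (fun p => g.1 p.1 p.2) (f i)) • w i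

lemma RatVec.zero (ρ : Representation k (G k) V) : RatVec ρ 0 :=
  ⟨0, Fin.elim0, Fin.elim0, fun g => by simp⟩

lemma RatVec.add {ρ : Representation k (G k) V} {v v' : V} (h : RatVec ρ v) (h' : RatVec ρ v') :
    RatVec ρ (v + v') := by
  obtain ⟨m, f, w, h⟩ := h
  obtain ⟨m', f', w', h'⟩ := h'
  refine ⟨m + m', Fin.append f f', Fin.append w w', fun g => ?_⟩
  rw [map_add, h g, h' g, Fin.sum_univ_add]
  simp

lemma RatVec.sum {ρ : Representation k (G k) V} {ι : Type*} (s : Finset ι) (v : ι → V)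
    (h : ∀ i ∈ s, RatVec ρ (v i)) : RatVec ρ (∑ i ∈ s, v i) := by
  classical
  induction s using Finset.induction_on with
  | empty => simpa using RatVec.zero ρ
  | insert a s ha ih =>
    rw [Finset.sum_insert ha]
    exact (h a (Finset.mem_insert_self _ _)).add
      (ih (fun i hi => h i (Finset.mem_insert_of_mem hi)))

/-- transport of rational vectors by a map whose composition with the orbit map is linear -/
lemma RatVec.map {ρ : Representation k (G k) V} {V' : Type*} [AddCommGroup V'] [Module k V']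
    {ρ' : Representation k (G k) V'} {v : V} (h : RatVec ρ v) (L : V →ₗ[k] V') (v' : V')
    (hL : ∀ g, ρ' g v' = L (ρ g v)) : RatVec ρ' v' := by
  obtain ⟨m, f, w, h⟩ := h
  refine ⟨m, f, fun i => L (w i), fun g => ?_⟩
  rw [hL g, h g, map_sum]
  simp

end

section

variable {k : Type*} [Field k] {A : Type*} [CommRing A] [Algebra k A] {Γ : Type*} [Group Γ]

lemma mul_one_eq {ρ : Representation k Γ A} (hmul : ∀ g a b, ρ g (a * b) = ρ g a * ρ g b) (g : Γ) :
    ρ g 1 = 1 := by
  have h1 : ρ g (ρ g⁻¹ 1) = 1 := by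
    have h2 : ρ g (ρ g⁻¹ 1) = (ρ g * ρ g⁻¹) 1 := rfl
    rw [h2, ← map_mul ρ, mul_inv_cancel, map_one ρ]
    rfl
  calc ρ g 1 = ρ g 1 * ρ g (ρ g⁻¹ 1) := by rw [h1, mul_one]
    _ = ρ g (1 * ρ g⁻¹ 1) := (hmul _ _ _).symm
    _ = 1 := by rw [one_mul, h1]

/-- the action of a group element as an algebra homomorphism -/
def toAlg (ρ : Representation k Γ A) (hmul : ∀ g a b, ρ g (a * b) = ρ g a * ρ g b) (g : Γ) :
    A →ₐ[k] A :=
  AlgHom.ofLinearMap (ρ g) (mul_one_eq hmul g) (hmul g)

@[simp] lemma toAlg_apply (ρ : Representation k Γ A)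
    (hmul : ∀ g a b, ρ g (a * b) = ρ g a * ρ g b) (g : Γ) (a : A) :
    toAlg ρ hmul g a = ρ g a := rfl

end

end Pool.Agent.Helper92.TR
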