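import Pool.Agent.Helper92.TR.Filt

/-!
# The Rees algebra: grading, finite generation, action
-/

set_option autoImplicit false

namespace Pool.Agent.Helper92.TR

open Pool.Agent.Helper66.TR Polynomial DirectSum

variable {k : Type*} [Field k] {A : Type*} [CommRing A] [Algebra k A]

/-- the homogeneous parts -/
def gr (W : Submodule k A) (n : ℕ) : Submodule k (rees W) where
  carrier := {b | ∀ m, m ≠ n → (b : A[X]).coeff m = 0}
  add_mem' := by
    intro a b ha hb m hm
    have h1 := ha m hm
    have h2 := hb m hm
    show ((a : A[X]) + (b : A[X])).coeff m = 0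
    rw [Polynomial.coeff_add, h1, h2, add_zero]
  zero_mem' := by
    intro m _
    show (0 : A[X]).coeff m = 0
    simp
  smul_mem' := by
    intro c b hb m hm
    show (c • (b : A[X])).coeff m = 0
    rw [Polynomial.coeff_smul, hb m hm, smul_zero]

lemma mem_gr {W : Submodule k A} {n : ℕ} {b : rees W} :
    b ∈ gr W n ↔ ∀ m, m ≠ n → (b : A[X]).coeff m = 0 := Iff.rfl

/-- the component -/
noncomputable def comp {W : Submodule k A} (b : rees W) (n : ℕ) : rees W :=
  ⟨monomial n ((b : A[X]).coeff n), monomial_mem (b.2 n)⟩

lemma comp_mem {W : Submodule k A} (b : rees W) (n : ℕ) : comp b n ∈ gr W n := by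
  intro m hm
  show (monomial n ((b : A[X]).coeff n)).coeff m = 0
  rw [coeff_monomial, if_neg hm.symm]

instance grMonoid (W : Submodule k A) : SetLike.GradedMonoid (gr W) where
  one_mem := by
    intro m hm
    show (1 : A[X]).coeff m = 0
    rw [Polynomial.coeff_one, if_neg hm]
  mul_mem := by
    intro i j a b ha hb m hm
    show ((a : A[X]) * (b : A[X])).coeff m = 0
    rw [Polynomial.coeff_mul]
    apply Finset.sum_eq_zero
    intro x hx
    have hx2 : x.1 + x.2 = m := by simpa using hx
    by_cases h : x.1 = i
    · have h2 : x.2 ≠ j := by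
        intro h3
        apply hm
        rw [← hx2, h, h3]
      rw [hb _ h2, mul_zero]
    · rw [ha _ h, zero_mul]

lemma coe_coeff {W : Submodule k A} (x : ⨁ n, gr W n) (m : ℕ) :
    ((DirectSum.coeAddMonoidHom (gr W) x : rees W) : A[X]).coeff m =
      ((x m : rees W) : A[X]).coeff m := by
  induction x using DirectSum.induction_on with
  | zero =>
    rw [map_zero]
    rfl
  | of i a =>
    rw [DirectSum.coeAddMonoidHom_of]
    by_cases h : i = m
    · subst h
      rw [DirectSum.of_eq_same]
    · rw [DirectSum.of_eq_of_ne _ _ _ (fun h' => h h'.symm)]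
      rw [a.2 m (fun h' => h h'.symm)]
      rfl
  | add x y hx hy =>
    rw [map_add]
    show ((DirectSum.coeAddMonoidHom (gr W) x : A[X]) + (DirectSum.coeAddMonoidHom (gr W) y : A[X])).coeff m = _
    rw [Polynomial.coeff_add, hx, hy, DirectSum.add_apply]
    rfl

lemma gr_internal (W : Submodule k A) : DirectSum.IsInternal (gr W) := by
  constructor
  · intro x y hxy
    apply DFinsupp.ext
    intro m
    apply Subtype.ext
    apply Subtype.ext
    apply Polynomial.ext
    intro i
    by_cases h : i = m
    · subst h
      rw [← coe_coeff x i, ← coe_coeff y i, hxy]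
    · rw [(x m).2 i h, (y m).2 i h]
  · intro b
    refine ⟨∑ n ∈ (b : A[X]).support, DirectSum.of (fun n => gr W n) n ⟨comp b n, comp_mem b n⟩, ?_⟩
    rw [map_sum]
    simp only [DirectSum.coeAddMonoidHom_of]
    apply Subtype.ext
    rw [AddSubmonoidClass.coe_finsetSum]
    exact (Polynomial.as_sum_support (b : A[X])).symm

noncomputable instance grAlgebra (W : Submodule k A) : GradedAlgebra (gr W) :=
  { grMonoid W, (gr_internal W).chooseDecomposition with }

lemma rees_fg {W : Submodule k A} (hW : W.FG) : (rees W).FG := by
  classical
  obtain ⟨S, hS⟩ := hW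
  refine ⟨S.image (fun w => monomial 1 w), le_antisymm ?_ ?_⟩
  · rw [Algebra.adjoin_le_iff]
    intro p hp
    rw [Finset.coe_image] at hp
    obtain ⟨w, hw, rfl⟩ := hp
    apply monomial_mem
    rw [pow_one, ← hS]
    exact Submodule.subset_span hw
  · have hgen : ∀ w ∈ W, monomial 1 w ∈ Algebra.adjoin k
        ((S.image (fun w => monomial 1 w) : Finset A[X]) : Set A[X]) := by
      intro w hw
      rw [← hS] at hw
      induction hw using Submodule.span_induction with
      | mem y hy =>
        apply Algebra.subset_adjoin
        rw [Finset.coe_image]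
        exact ⟨y, hy, rfl⟩
      | zero => rw [map_zero]; exact Subalgebra.zero_mem _
      | add x y _ _ hx hy => rw [map_add]; exact Subalgebra.add_mem _ hx hy
      | smul c x _ hx =>
        rw [← Polynomial.smul_monomial]
        exact Subalgebra.smul_mem _ hx c
    have hmon : ∀ (n : ℕ) (a : A), a ∈ W ^ n → monomial n a ∈ Algebra.adjoin k
        ((S.image (fun w => monomial 1 w) : Finset A[X]) : Set A[X]) := by
      intro n
      induction n with
      | zero =>
        intro a ha
        rw [pow_zero, Submodule.mem_one] at ha
        obtain ⟨r, rfl⟩ := ha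
        rw [Polynomial.monomial_zero_left]
        exact Subalgebra.algebraMap_mem _ r
      | succ n ih =>
        intro a ha
        rw [pow_succ] at ha
        induction ha using Submodule.mul_induction_on' with
        | mem_mul_mem x hx y hy =>
          rw [← monomial_mul_monomial]
          exact Subalgebra.mul_mem _ (ih x hx) (hgen y hy)
        | add x _ y _ hx hy =>
          rw [map_add]
          exact Subalgebra.add_mem _ hx hy
    intro p hp
    rw [Polynomial.as_sum_support p]
    apply Subalgebra.sum_mem
    intro n _
    exact hmon n _ (hp n)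

instance rees_noeth {W : Submodule k A} [h : Fact W.FG] : IsNoetherianRing (rees W) := by
  have : Algebra.FiniteType k (rees W) := (Subalgebra.fg_iff_finiteType (rees W)).mp (rees_fg h.out)
  exact Algebra.FiniteType.isNoetherianRing k (rees W)

end Pool.Agent.Helper92.TR
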